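import Mathlib

set_option autoImplicit false

namespace Pool.Agent.Results.MP_acd7ab_co.Cex

open Equiv Finset

/-- Even-cycle-intersecting family. -/
def ECI {n : ℕ} (F : Finset (Perm (Fin n))) : Prop :=
  ∀ σ ∈ F, ∀ π ∈ F, σ ≠ π → ∃ k ∈ (σ * π⁻¹).cycleType, Even k

/-- Even-cycle-intersecting family of maximum size. -/
def Extremal {n : ℕ} (F : Finset (Perm (Fin n))) : Prop :=
  ECI F ∧ ∀ F' : Finset (Perm (Fin n)), ECI F' → #F' ≤ #F

def L : Fin 8 → Perm (Fin 5) :=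
  ![⟨![0, 1, 2, 3, 4], ![0, 1, 2, 3, 4], by decide, by decide⟩,
    ⟨![4, 1, 3, 0, 2], ![3, 1, 4, 2, 0], by decide, by decide⟩,
    ⟨![4, 3, 2, 1, 0], ![4, 3, 2, 1, 0], by decide, by decide⟩,
    ⟨![3, 4, 2, 0, 1], ![3, 4, 2, 0, 1], by decide, by decide⟩,
    ⟨![4, 2, 0, 3, 1], ![2, 4, 1, 3, 0], by decide, by decide⟩,
    ⟨![1, 0, 2, 4, 3], ![1, 0, 2, 4, 3], by decide, by decide⟩,
    ⟨![4, 0, 2, 1, 3], ![1, 3, 2, 4, 0], by decide, by decide⟩,
    ⟨![4, 3, 1, 2, 0], ![4, 2, 3, 1, 0], by decide, by decide⟩]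

theorem hL : ∀ i j, i ≠ j → (L i * (L j)⁻¹) ^ 12 = 1 ∧ (L i * (L j)⁻¹) ^ 3 ≠ 1 := by
  decide +kernel

theorem ev (x : Perm (Fin 5)) (h : x ^ 12 = 1 ∧ x ^ 3 ≠ 1) : ∃ k ∈ x.cycleType, Even k := by
  by_contra hc
  push Not at hc
  apply h.2
  rw [← orderOf_dvd_iff_pow_eq_one, ← Perm.lcm_cycleType, Multiset.lcm_dvd]
  intro k hk
  have h1 : k ∣ 2 ^ 2 * 3 := (Perm.dvd_of_mem_cycleType hk).trans (orderOf_dvd_iff_pow_eq_one.2 h.1)
  exact (Nat.Coprime.pow_right 2 (Nat.coprime_two_right.2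
    (Nat.not_even_iff_odd.1 (hc k hk)))).dvd_of_dvd_mul_left h1

theorem cP (P : Sylow 2 (Perm (Fin 5))) : Nat.card P = 8 := by
  have : Nat.card (Perm (Fin 5)) = 2 ^ 3 * 15 := by simp [Fintype.card_perm, Nat.factorial]
  rw [P.card_eq_multiplicity, this, Nat.factorization_mul (by norm_num) (by norm_num),
    Finsupp.add_apply, Nat.Prime.factorization_pow Nat.prime_two,
    Nat.factorization_eq_zero_of_not_dvd (by norm_num)]
  simp

theorem result : ∃ n : ℕ, 2 ≤ n ∧ ∃ F : Finset (Perm (Fin n)), Extremal F ∧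
    ¬ ∃ (P : Sylow 2 (Perm (Fin n))) (σ π : Perm (Fin n)),
      (F : Set (Perm (Fin n))) = (fun g => σ * g * π) '' (P : Set (Perm (Fin n))) := by
  classical
  refine ⟨5, by norm_num, ?_⟩
  obtain ⟨M, hM, hm⟩ := exists_max_image (univ.filter fun F : Finset (Perm (Fin 5)) => ECI F) card
    ⟨∅, by simp [ECI]⟩
  simp only [mem_filter, mem_univ, true_and] at hM hm
  by_cases h : #M ≤ 8
  · have inj : Function.Injective L := fun i j e => by
      by_contra hc
      exact (hL i j hc).2 (by simp [e])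
    refine ⟨univ.image L, ⟨?_, fun F hF => ?_⟩, ?_⟩
    · simp only [ECI, mem_image, mem_univ, true_and, forall_exists_index, forall_apply_eq_imp_iff]
      exact fun i j e => ev _ (hL i j fun e' => e (congrArg L e'))
    · rw [card_image_of_injective _ inj]
      exact (hm F hF).trans h
    · rintro ⟨P, σ, π, e⟩
      obtain ⟨a, ha, e1⟩ := e.le (mem_image_of_mem L (mem_univ 7))
      obtain ⟨b, hb, e2⟩ := e.le (mem_image_of_mem L (mem_univ 0))
      have h8 : (a * b⁻¹) ^ 8 = 1 := by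
        have := pow_card_eq_one' (x := (⟨a * b⁻¹, P.1.mul_mem ha (P.1.inv_mem hb)⟩ : P.1))
        rw [show Nat.card P.1 = 8 from cP P] at this
        exact congrArg Subtype.val this
      have : L 7 * (L 0)⁻¹ = σ * (a * b⁻¹) * σ⁻¹ := by
        rw [← e1, ← e2]; group
      have h9 : (L 7 * (L 0)⁻¹) ^ 8 = 1 := by rw [this, conj_pow, h8]; group
      exact absurd h9 (by decide +kernel)
  · refine ⟨M, ⟨hM, hm⟩, ?_⟩
    rintro ⟨P, σ, π, e⟩
    apply h
    rw [← Set.ncard_coe_finset, e, ← cP P]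
    exact Set.ncard_image_le (Set.toFinite _)

end Pool.Agent.Results.MP_acd7ab_co.Cex
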